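import Pool.Agent.Q41.SU.Stm1
import Pool.Agent.Q41.SU.Stm2
import Pool.Agent.Q41.SU.Stm3

/-!
# Project SU (helper41), job T8 (helper162): tools for the main inequality
-/

set_option autoImplicit false

namespace Pool.Agent.Q162.SU

open Finset Polynomial TensorProduct
open Pool.Agent.Q41.SU

universe u

/-! ## evaluation -/

section ev

variable {k A B : Type*} [CommRing k] [CommRing A] [CommRing B] [Algebra k A] [Algebra k B]

lemma ev_map (φ : A →ₐ[k] B) (F : k[X][X]) (x y : A) : φ (ev F x y) = ev F (φ x) (φ y) := by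
  unfold ev
  have h1 := Polynomial.hom_eval₂ F ((aeval x : k[X] →ₐ[k] A) : k[X] →+* A) (φ : A →+* B) y
  rw [RingHom.coe_coe] at h1
  rw [h1]
  congr 1
  have h2 : (φ.comp (aeval x : k[X] →ₐ[k] A)) = (aeval (φ x) : k[X] →ₐ[k] B) := by
    apply Polynomial.algHom_ext
    simp
  ext z
  · simp
  · simp

lemma ev_dvd {F G : k[X][X]} (h : F ∣ G) (x y : A) : ev F x y ∣ ev G x y := by
  obtain ⟨H, rfl⟩ := h
  unfold ev
  rw [Polynomial.eval₂_mul]
  exact dvd_mul_right _ _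

lemma ev_pow (F : k[X][X]) (n : ℕ) (x y : A) : ev (F ^ n) x y = ev F x y ^ n := by
  unfold ev
  rw [Polynomial.eval₂_pow]

lemma ev_diag (x y : A) : ev (Polynomial.X - Polynomial.C Polynomial.X : k[X][X]) x y = y - x := by
  unfold ev
  rw [Polynomial.eval₂_sub, Polynomial.eval₂_X, Polynomial.eval₂_C]
  simp

lemma bd_map {A B : Type*} [CommRing A] [CommRing B] (φ : A →+* B) (a b : ℕ) (u v : II a b → A) :
    φ (bd a b u v) = bd a b (fun l => φ (u l)) (fun l => φ (v l)) := by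
  unfold bd
  rw [RingHom.map_det]
  congr 1
  ext l c
  simp

end ev

/-- the evaluation of the norm polynomial -/
lemma eval_F {k E : Type u} [Field k] [Field E] [Algebra k E] {B : Type*} [CommRing B] [Algebra k B] (t : E)
    (G : Subgroup (E ≃ₐ[k] E)) [Fintype G] (a b : ℕ) (x : II a b → E) (f₁ f₂ : E →ₐ[k] B) {F : k[X][X]} {M' : ℕ} {Q : k[X]}
    (hF : ev F (t ⊗ₜ[k] (1 : E)) ((1 : E) ⊗ₜ[k] t) = (aeval t Q ^ M') ⊗ₜ[k] (aeval t Q ^ M') *
        ∏ g : G, ∏ h : G, bd a b (fun l => ((g : E ≃ₐ[k] E) (x l)) ⊗ₜ[k] (1 : E))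
          (fun l => (1 : E) ⊗ₜ[k] ((h : E ≃ₐ[k] E) (x l)))) :
    ev F (f₁ t) (f₂ t) = (f₁ (aeval t Q)) ^ M' * (f₂ (aeval t Q)) ^ M' *
        ∏ g : G, ∏ h : G, bd a b (fun l => f₁ ((g : E ≃ₐ[k] E) (x l))) (fun l => f₂ ((h : E ≃ₐ[k] E) (x l))) := by
  have h1 := congrArg (Algebra.TensorProduct.productMap f₁ f₂) hF
  rw [ev_map, Algebra.TensorProduct.productMap_apply_tmul, Algebra.TensorProduct.productMap_apply_tmul, map_one, map_one, mul_one,
    one_mul, map_mul, Algebra.TensorProduct.productMap_apply_tmul, map_pow, map_pow, map_prod] at h1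
  rw [h1]
  congr 1
  apply prod_congr rfl
  intro g _
  rw [map_prod]
  apply prod_congr rfl
  intro h _
  have h2 := bd_map ((Algebra.TensorProduct.productMap f₁ f₂ : E ⊗[k] E →ₐ[k] B) : E ⊗[k] E →+* B) a b
    (fun l => ((g : E ≃ₐ[k] E) (x l)) ⊗ₜ[k] (1 : E)) (fun l => (1 : E) ⊗ₜ[k] ((h : E ≃ₐ[k] E) (x l)))
  rw [RingHom.coe_coe] at h2
  rw [h2]
  simp only [Algebra.TensorProduct.productMap_apply_tmul, map_one, mul_one, one_mul]

/-! ## norms -/

section norms

variable {k Λ : Type u} [Field k] [NormedField Λ] [IsUltrametricDist Λ] [Algebra k Λ] {s : Λ}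

lemma norm_c_le (hA : IsAmb k Λ s) (c : k) : ‖algebraMap k Λ c‖ ≤ 1 := by
  rcases eq_or_ne c 0 with h | h
  · rw [h, map_zero, norm_zero]
    exact zero_le_one
  · exact (hA.norm_c c h).le

/-- from norms to divisibility -/
lemma pow_dvd_of_norm (hn : S_npol.{u}) (hA : IsAmb k Λ s) (P : k[X]) {r : ℝ} (h : ‖aeval s P‖ ≤ Real.exp (-r)) :
    Polynomial.X ^ ⌈r⌉₊ ∣ P := by
  rcases eq_or_ne P 0 with h0 | h0
  · rw [h0]
    exact dvd_zero _
  obtain ⟨w, Q, hQ, hP⟩ := WfDvdMonoid.max_power_factor h0 Polynomial.irreducible_X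
  have hs : ‖s‖ < 1 := by
    rw [hA.norm_s, Real.exp_lt_one_iff]
    norm_num
  have hQ1 : 1 ≤ ‖aeval s Q‖ := by
    by_contra hcon
    rw [not_le] at hcon
    have e1 : aeval s Q = algebraMap k Λ (Q.coeff 0) + s * aeval s Q.divX := by
      conv_lhs => rw [← Polynomial.X_mul_divX_add Q]
      rw [map_add, map_mul, aeval_X, aeval_C]
      ring
    have e2 : ‖aeval s Q.divX‖ ≤ 1 := by
      have := (hn k Λ s hA Q.divX 0).1 (by rw [pow_zero]; exact one_dvd _)
      simpa using this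
    have e3 : Q.coeff 0 ≠ 0 := fun h => hQ (Polynomial.X_dvd_iff.2 h)
    have e4 := hA.norm_c _ e3
    have e5 : algebraMap k Λ (Q.coeff 0) = aeval s Q + -(s * aeval s Q.divX) := by
      rw [e1]
      ring
    have e6 := IsUltrametricDist.norm_add_le_max (aeval s Q) (-(s * aeval s Q.divX))
    rw [← e5, e4, norm_neg, norm_mul] at e6
    have e7 : ‖s‖ * ‖aeval s Q.divX‖ < 1 := by
      calc ‖s‖ * ‖aeval s Q.divX‖ ≤ ‖s‖ * 1 := mul_le_mul_of_nonneg_left e2 (norm_nonneg _)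
        _ < 1 := by rw [mul_one]; exact hs
    exact absurd e6 (not_le.2 (max_lt hcon e7))
  have h1 : Real.exp (-(w : ℝ)) ≤ ‖aeval s P‖ := by
    rw [hP, map_mul, map_pow, aeval_X, norm_mul, norm_pow, hA.norm_s, ← Real.exp_nat_mul]
    calc Real.exp (-(w : ℝ)) = Real.exp (↑w * -1) * 1 := by
          rw [mul_one]
          congr 1
          ring
      _ ≤ _ := mul_le_mul_of_nonneg_left hQ1 (Real.exp_pos _).le
  have h2 : r ≤ w := by
    have := Real.exp_le_exp.1 (h1.trans h)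
    linarith
  have h3 : ⌈r⌉₊ ≤ w := Nat.ceil_le.2 h2
  rw [hP]
  exact dvd_mul_of_dvd_left (pow_dvd_pow _ h3) _

/-- the norm of the product of the linear factors -/
lemma norm_Q {E : Type u} [Field E] [Algebra k E] (hA : IsAmb k Λ s) (f : E →ₐ[k] Λ) {t : E} {c : k} {y : Λ}
    (hf : f t = algebraMap k Λ c + y) (hy : ‖y‖ ≤ 1) (S₀ : Finset k) :
    ‖f (aeval t (∏ t₀ ∈ S₀, (Polynomial.X - Polynomial.C t₀)))‖ ≤ 1 ∧
      (c ∈ S₀ → ‖f (aeval t (∏ t₀ ∈ S₀, (Polynomial.X - Polynomial.C t₀)))‖ ≤ ‖y‖) := by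
  classical
  have e1 : f (aeval t (∏ t₀ ∈ S₀, (Polynomial.X - Polynomial.C t₀))) = ∏ t₀ ∈ S₀, (algebraMap k Λ (c - t₀) + y) := by
    rw [map_prod, map_prod]
    apply prod_congr rfl
    intro t₀ _
    rw [map_sub, aeval_X, aeval_C, map_sub, hf, AlgHom.commutes, map_sub]
    ring
  have e2 : ∀ t₀, ‖algebraMap k Λ (c - t₀) + y‖ ≤ 1 := fun t₀ =>
    (IsUltrametricDist.norm_add_le_max _ _).trans (max_le (norm_c_le hA _) hy)
  rw [e1, norm_prod]
  refine ⟨prod_le_one (fun _ _ => norm_nonneg _) (fun t₀ _ => e2 t₀), ?_⟩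
  intro hc
  rw [← mul_prod_erase S₀ _ hc, sub_self, map_zero, zero_add]
  apply mul_le_of_le_one_right (norm_nonneg _)
  exact prod_le_one (fun _ _ => norm_nonneg _) (fun t₀ _ => e2 t₀)

end norms

/-! ## the transported Moebius maps -/

section moebius

variable {k E : Type*} [Field k] [Field E] [Algebra k E]

/-- the image of the map under an automorphism -/
def gM (g : E ≃ₐ[k] E) (m : Mb E) : Mb E := ⟨g m.α, g m.β, g m.γ, g m.δ⟩

lemma gM_det (g : E ≃ₐ[k] E) (m : Mb E) : (gM g m).det = g m.det := by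
  simp [gM, Mb.det]

lemma gM_den (g : E ≃ₐ[k] E) (m : Mb E) (x : E) : (gM g m).den (g x) = g (m.den x) := by
  simp [gM, Mb.den]

lemma gM_app (g : E ≃ₐ[k] E) (m : Mb E) (x : E) : (gM g m).app (g x) = g (m.app x) := by
  simp [gM, Mb.app, Mb.den]

lemma app_inj {m : Mb E} (hd : m.det ≠ 0) {x y : E} (hx : m.den x ≠ 0) (hy : m.den y ≠ 0) (h : m.app x = m.app y) : x = y := by
  unfold Mb.app at h
  rw [div_eq_div_iff hx hy] at h
  unfold Mb.den at h
  have h1 : m.det * (x - y) = 0 := by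
    unfold Mb.det
    linear_combination h
  rcases mul_eq_zero.1 h1 with h2 | h2
  · exact absurd h2 hd
  · exact sub_eq_zero.1 h2

end moebius

/-! ## sums over levels -/

lemma LS_sub {ι : Type*} [Fintype ι] [DecidableEq ι] (F H : ℕ → ℝ) (M : ℕ) (o : ι → ι → ℤ) :
    LS (fun n => F n - H n) M o = LS F M o - LS H M o := by
  unfold LS
  rw [← sum_sub_distrib]
  apply sum_congr rfl
  intro i _
  rw [← sum_sub_distrib]
  apply sum_congr rfl
  intro l _
  ring

lemma LS_mul {ι : Type*} [Fintype ι] [DecidableEq ι] (c : ℝ) (F : ℕ → ℝ) (M : ℕ) (o : ι → ι → ℤ) :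
    LS (fun n => c * F n) M o = c * LS F M o := by
  unfold LS
  rw [mul_sum]
  apply sum_congr rfl
  intro i _
  rw [mul_sum]
  apply sum_congr rfl
  intro l _
  ring

lemma LS_gam {ι : Type*} [Fintype ι] [DecidableEq ι] (a b Θ M : ℕ) (o : ι → ι → ℤ) :
    LS (gam a b Θ) M o = LS (fun n => (phi 1 Θ a b n : ℝ)) M o - LS (fun n => (phi 1 0 a b n : ℝ)) M o -
      Θ * LS (fun n => (phi 0 1 a b n : ℝ)) M o := by
  rw [← LS_mul, ← LS_sub, ← LS_sub]
  rfl

lemma LS_kap {ι : Type*} [Fintype ι] [DecidableEq ι] (a b M : ℕ) (o : ι → ι → ℤ) :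
    LS (kap a b) M o = ((a : ℝ) + b) / (2 * (((a : ℝ) + 1) * (b + 1) - 1)) * LS (fun n => (n : ℝ) * (n - 1)) M o -
      LS (fun n => (phi 0 1 a b n : ℝ)) M o - LS (fun n => (phi 1 0 a b n : ℝ)) M o := by
  rw [← LS_mul, ← LS_sub, ← LS_sub]
  rfl

/-! ## the order at the diagonal -/

section diag

variable {E : Type*} [Field E]

lemma order_prod {J : Type*} (T : Finset J) (f : J → PowerSeries E) (c : ℕ)
    (h : ∀ j ∈ T, ¬ (PowerSeries.X : PowerSeries E) ^ (c + 1) ∣ f j) :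
    ¬ (PowerSeries.X : PowerSeries E) ^ (T.card * c + 1) ∣ ∏ j ∈ T, f j := by
  rw [← emultiplicity_lt_iff_not_dvd, Finset.emultiplicity_prod PowerSeries.X_prime]
  have h1 : ∀ j ∈ T, emultiplicity (PowerSeries.X : PowerSeries E) (f j) ≤ (c : ℕ∞) := by
    intro j hj
    have := emultiplicity_lt_iff_not_dvd.2 (h j hj)
    rw [Nat.cast_add, Nat.cast_one] at this
    exact Order.le_of_lt_add_one this
  have h2 := sum_le_sum h1
  rw [sum_const, nsmul_eq_mul] at h2
  refine lt_of_le_of_lt h2 ?_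
  rw [← Nat.cast_mul, Nat.cast_lt]
  exact Nat.lt_succ_self _

lemma X_pow_dvd_map {E' : Type*} [Field E'] (φ : E →+* E') (n : ℕ) (f : PowerSeries E)
    (h : (PowerSeries.X : PowerSeries E') ^ n ∣ PowerSeries.map φ f) : (PowerSeries.X : PowerSeries E) ^ n ∣ f := by
  rw [PowerSeries.X_pow_dvd_iff] at h ⊢
  intro m hm
  have := h m hm
  rw [PowerSeries.coeff_map] at this
  exact (map_eq_zero φ).1 this

end diag

end Pool.Agent.Q162.SU
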